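import Pool.Agent.helper93.FR.Spec

namespace Pool.Agent.helper93.FR

open Matrix BigOperators

theorem Typ_comp {κ m n l : Type} [Fintype m] [Fintype n] [Fintype l]
    {y : κ → Matrix m m ℂ} {z : κ → Matrix n n ℂ} {w : κ → Matrix l l ℂ}
    {h : Matrix n m ℂ} {h' : Matrix l n ℂ} (h1 : SInt y z h) (h2 : SInt z w h') :
    SInt y w (h' * h) := by
  intro j
  refine ⟨?_, ?_⟩
  · rw [Matrix.mul_assoc, (h1 j).1, ← Matrix.mul_assoc, (h2 j).1, Matrix.mul_assoc]
  · rw [Matrix.mul_assoc, (h1 j).2, ← Matrix.mul_assoc, (h2 j).2, Matrix.mul_assoc]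

theorem Typ_conj {κ m n : Type} [Fintype m] [Fintype n]
    {y : κ → Matrix m m ℂ} {z : κ → Matrix n n ℂ}
    {h : Matrix n m ℂ} (h1 : SInt y z h) : SInt z y hᴴ := by
  intro j
  refine ⟨?_, ?_⟩
  · have := congrArg Matrix.conjTranspose (h1 j).2
    rw [Matrix.conjTranspose_mul, Matrix.conjTranspose_mul, Matrix.conjTranspose_conjTranspose,
      Matrix.conjTranspose_conjTranspose] at this
    exact this.symm
  · have := congrArg Matrix.conjTranspose (h1 j).1
    rw [Matrix.conjTranspose_mul, Matrix.conjTranspose_mul] at this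
    exact this.symm

theorem Typ_smul {κ m n : Type} [Fintype m] [Fintype n]
    {y : κ → Matrix m m ℂ} {z : κ → Matrix n n ℂ}
    {h : Matrix n m ℂ} (h1 : SInt y z h) (c : ℂ) : SInt y z (c • h) := by
  intro j
  refine ⟨?_, ?_⟩
  · rw [Matrix.smul_mul, (h1 j).1, Matrix.mul_smul]
  · rw [Matrix.smul_mul, (h1 j).2, Matrix.mul_smul]

theorem Typ_one {κ m : Type} [Fintype m] [DecidableEq m]
    (y : κ → Matrix m m ℂ) : SInt y y (1 : Matrix m m ℂ) := by
  intro j
  simp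

theorem Typ_ne {κ m n l : Type} [Fintype m] [DecidableEq m] [Fintype n] [DecidableEq n]
    [Fintype l] (hS : Sch_stmt)
    {y : κ → Matrix m m ℂ} {z : κ → Matrix n n ℂ}
    {h : Matrix n m ℂ} {h' : Matrix l n ℂ} (hy : Irr y) (hz : Irr z) (h1 : SInt y z h)
    (h0 : h ≠ 0) (h0' : h' ≠ 0) : h' * h ≠ 0 := by
  intro he
  obtain ⟨⟨c, hc, -, hc2⟩, -⟩ := hS κ m n y z h hy hz h1 h0
  apply h0'
  have e : h' * (h * hᴴ) = 0 := by rw [← Matrix.mul_assoc, he, Matrix.zero_mul]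
  rw [hc2, Matrix.mul_smul, Matrix.mul_one] at e
  have hcc : (c : ℂ) ≠ 0 := by exact_mod_cast hc.ne'
  exact (smul_eq_zero.mp e).resolve_left hcc

theorem Typ_unit {κ m n : Type} [Fintype m] [DecidableEq m] [Fintype n] [DecidableEq n]
    (hS : Sch_stmt)
    {y : κ → Matrix m m ℂ} {z : κ → Matrix n n ℂ}
    {h : Matrix n m ℂ} (hy : Irr y) (hz : Irr z) (h1 : SInt y z h)
    (h0 : h ≠ 0) : ∃ V : Matrix n m ℂ, Vᴴ * V = 1 ∧ V * Vᴴ = 1 ∧ SInt y z V := by
  obtain ⟨⟨c, hc, hc1, hc2⟩, -⟩ := hS κ m n y z h hy hz h1 h0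
  have hs : (((Real.sqrt c)⁻¹ : ℝ) : ℂ) * (((Real.sqrt c)⁻¹ : ℝ) : ℂ) * (c : ℂ) = 1 := by
    have : (Real.sqrt c)⁻¹ * (Real.sqrt c)⁻¹ * c = 1 := by
      rw [← mul_inv, Real.mul_self_sqrt hc.le, inv_mul_cancel₀ hc.ne']
    exact_mod_cast this
  refine ⟨(((Real.sqrt c)⁻¹ : ℝ) : ℂ) • h, ?_, ?_, Typ_smul h1 _⟩
  · rw [Matrix.conjTranspose_smul, Matrix.smul_mul, Matrix.mul_smul, hc1, smul_smul, smul_smul]
    have e : star (((Real.sqrt c)⁻¹ : ℝ) : ℂ) = (((Real.sqrt c)⁻¹ : ℝ) : ℂ) :=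
      Complex.conj_ofReal _
    rw [e, hs, one_smul]
  · rw [Matrix.conjTranspose_smul, Matrix.smul_mul, Matrix.mul_smul, hc2, smul_smul, smul_smul]
    have e : star (((Real.sqrt c)⁻¹ : ℝ) : ℂ) = (((Real.sqrt c)⁻¹ : ℝ) : ℂ) :=
      Complex.conj_ofReal _
    rw [e, hs, one_smul]

theorem Typ (hS : Sch_stmt) (hD : Dec_stmt) : Typ_stmt := by
  classical
  intro κ n y
  obtain ⟨g, d, J, z, hJ1, hJ2, hJ3, hirr, hint, hsum, hg⟩ := hD κ n y
  let R : Setoid (Fin g) :=
    { r := fun k l => ∃ h : Matrix (Fin (d l)) (Fin (d k)) ℂ, h ≠ 0 ∧ SInt (z k) (z l) h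
      iseqv :=
        { refl := fun k => by
            have : Nonempty (Fin (d k)) := (hirr k).1
            exact ⟨1, one_ne_zero, Typ_one _⟩
          symm := fun {k l} h => by
            obtain ⟨h, h0, h1⟩ := h
            exact ⟨hᴴ, fun e => h0 (Matrix.conjTranspose_eq_zero.mp e), Typ_conj h1⟩
          trans := fun {k l p} h h' => by
            obtain ⟨h, h0, h1⟩ := h
            obtain ⟨h', h0', h1'⟩ := h'
            exact ⟨h' * h, Typ_ne hS (hirr k) (hirr l) h1 h0 h0', Typ_comp h1 h1'⟩ } }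
  let Q := Quotient R
  have : Fintype Q := Fintype.ofFinite Q
  let e : Fin (Fintype.card Q) ≃ Q := (Fintype.equivFin Q).symm
  let rep : Fin (Fintype.card Q) → Fin g := fun b => (e b).out
  have hrep : ∀ b, (Quotient.mk R (rep b) : Q) = e b := fun b => Quotient.out_eq _
  refine ⟨{ m := Fintype.card Q, w := fun b => d (rep b), σ := fun b => z (rep b), hm := ?_,
            hw := ?_, irr := fun b => hirr _, ineq := ?_, compl := ?_ }⟩
  · have h1 : Fintype.card Q ≤ Fintype.card (Fin g) :=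
      Fintype.card_le_of_surjective (Quotient.mk R) (fun q => Quotient.exists_rep q)
    rw [Fintype.card_fin] at h1
    omega
  · intro b
    calc d (rep b) ≤ ∑ k, d k :=
          Finset.single_le_sum (f := d) (fun _ _ => Nat.zero_le _) (Finset.mem_univ _)
      _ = n := hsum
  · intro b b' hbb h hh
    by_contra h0
    apply hbb
    apply e.injective
    rw [← hrep b, ← hrep b']
    exact Quotient.sound ⟨h, h0, hh⟩
  · intro D w G hw hG hG0
    have hk : ∃ k, (J k)ᴴ * G ≠ 0 := by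
      by_contra hcon
      push Not at hcon
      apply hG0
      calc G = (∑ k, J k * (J k)ᴴ) * G := by rw [hJ3, Matrix.one_mul]
        _ = ∑ k, J k * ((J k)ᴴ * G) := by
            rw [Matrix.sum_mul]
            exact Finset.sum_congr rfl fun k _ => Matrix.mul_assoc _ _ _
        _ = 0 := Finset.sum_eq_zero fun k _ => by rw [hcon k, Matrix.mul_zero]
    obtain ⟨k, hk⟩ := hk
    have hI : SInt w (z k) ((J k)ᴴ * G) := Typ_comp hG (Typ_conj (hint k))
    let b := e.symm (Quotient.mk R k)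
    have hb : R.r (rep b) k := by
      have : (Quotient.mk R (rep b) : Q) = Quotient.mk R k := by
        rw [hrep b]
        exact e.apply_symm_apply _
      exact Quotient.exact this
    obtain ⟨h, h0, hh⟩ := hb
    have hI' : SInt (z k) w ((J k)ᴴ * G)ᴴ := Typ_conj hI
    have hne : ((J k)ᴴ * G)ᴴ ≠ 0 := fun e => hk (Matrix.conjTranspose_eq_zero.mp e)
    have hV0 : ((J k)ᴴ * G)ᴴ * h ≠ 0 := Typ_ne hS (hirr _) (hirr _) hh h0 hne
    obtain ⟨V, hV1, hV2, hV3⟩ := Typ_unit hS (hirr _) hw (Typ_comp hh hI') hV0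
    exact ⟨b, V, hV1, hV2, hV3⟩

end Pool.Agent.helper93.FR
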